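import Mathlib
import Pool.Agent.Lib.helper3.SRW
namespace Pool.Agent.H.MP_6abe48_pr

open MeasureTheory ProbabilityTheory Filter Topology Pool.Agent.Lib.helper3
open Pool.Agent.Lib.helper3.SRW (walk)
open scoped ENNReal

noncomputable section

variable {V : Type} [MeasurableSpace V] [DiscreteMeasurableSpace V] [Countable V]
  (κ : V → Measure V) [∀ v, IsProbabilityMeasure (κ v)]

abbrev Dr : Measure (ℕ → V → V) := Measure.infinitePi fun _ => Measure.infinitePi κ

def K (f : V → ℝ≥0∞) (v : V) : ℝ≥0∞ := ∑' y, κ v {y} * f y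

lemma K_eq (f : V → ℝ≥0∞) (v : V) : K κ f v = ∫⁻ y, f y ∂κ v := by
  rw [lintegral_countable', K]
  exact tsum_congr fun y => mul_comm _ _

lemma K_one (v : V) : K κ (fun _ => 1) v = 1 := by simp [K_eq]

lemma mev : Measurable fun z : V × (V → V) => z.2 z.1 :=
  measurable_from_prod_countable_right fun v => measurable_pi_apply v

lemma wm (x : V) (t : ℕ) : Measurable fun ω => walk x ω t := by
  induction t with
  | zero => exact measurable_const
  | succ t ih => exact mev.comp (ih.prodMk (measurable_pi_apply t))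

omit [MeasurableSpace V] [DiscreteMeasurableSpace V] [Countable V] in
lemma wc (x : V) (t : ℕ) (ω ω' : ℕ → V → V) (h : ∀ i < t, ω i = ω' i) :
    walk x ω t = walk x ω' t := by
  induction t with
  | zero => rfl
  | succ t ih => rw [walk, walk, ih fun i hi => h i (by omega), h t (by omega)]

lemma step (x : V) (t : ℕ) (F : (ℕ → V → V) → ℝ≥0∞) (hF : Measurable F)
    (hd : ∀ ω ω', (∀ i < t, ω i = ω' i) → F ω = F ω') (g : V → ℝ≥0∞) :
    ∫⁻ η, F η * g (walk x η (t + 1)) ∂Dr κ = ∫⁻ η, F η * K κ g (walk x η t) ∂Dr κ := by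
  have : Nonempty (V → V) := ⟨id⟩
  have mg : Measurable g := Measurable.of_discrete
  have h := MC.indep_past (Measure.infinitePi κ) t (fun ω => (walk x ω t, F ω))
    ((wm x t).prodMk hF) (fun ω ω' h => by rw [wc x t ω ω' h, hd ω ω' h])
    (fun z => z.1.2 * g (z.2 z.1.1))
    (measurable_fst.snd.mul (mg.comp (mev.comp (measurable_fst.fst.prodMk measurable_snd))))
  refine h.trans (lintegral_congr fun ω => ?_)
  simp only
  rw [lintegral_const_mul _ (mg.fun_comp (measurable_pi_apply _)), K_eq,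
    ← lintegral_map mg (measurable_pi_apply _), Measure.infinitePi_map_eval]

omit [DiscreteMeasurableSpace V] [Countable V] [∀ v, IsProbabilityMeasure (κ v)] in
lemma sw (Z f : V → ℝ≥0∞) :
    ∑' y, (∑' v, Z v * κ v {y}) * f y = ∑' v, Z v * K κ f v := by
  simp only [K, ← ENNReal.tsum_mul_right, ← ENNReal.tsum_mul_left, mul_assoc]
  exact ENNReal.tsum_comm

omit [DiscreteMeasurableSpace V] [Countable V] [∀ v, IsProbabilityMeasure (κ v)] in
lemma K_tsum {ι : Type} (f : ι → V → ℝ≥0∞) (v : V) :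
    K κ (fun y => ∑' i, f i y) v = ∑' i, K κ (f i) v := by
  simp only [K, ← ENNReal.tsum_mul_left]
  exact ENNReal.tsum_comm

omit [DiscreteMeasurableSpace V] [Countable V] [∀ v, IsProbabilityMeasure (κ v)] in
lemma K_mul (c : ℝ≥0∞) (f : V → ℝ≥0∞) (v : V) :
    K κ (fun y => c * f y) v = c * K κ f v := by
  simp only [K, ← ENNReal.tsum_mul_left]
  exact tsum_congr fun y => by ring

omit [DiscreteMeasurableSpace V] [Countable V] [∀ v, IsProbabilityMeasure (κ v)] in
lemma K_add (f g : V → ℝ≥0∞) (v : V) :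
    K κ (fun y => f y + g y) v = K κ f v + K κ g v := by
  simp only [K, mul_add, ENNReal.tsum_add]

omit [DiscreteMeasurableSpace V] [Countable V] [∀ v, IsProbabilityMeasure (κ v)] in
lemma K_mono {f g : V → ℝ≥0∞} (h : ∀ y, f y ≤ g y) (v : V) : K κ f v ≤ K κ g v :=
  ENNReal.tsum_le_tsum fun y => mul_le_mul_right (h y) _

variable [DecidableEq V]

def zz (x : V) (ψ : ℕ → V → ℝ≥0∞) : ℕ → V → ℝ≥0∞
  | 0, y => if y = x then 1 else 0
  | n + 1, y => (∑' v, zz x ψ n v * κ v {y}) * ψ n y

lemma I_eq (x : V) (ψ : ℕ → V → ℝ≥0∞) (n : ℕ) : ∀ g : V → ℝ≥0∞,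
    ∫⁻ η, (∏ i ∈ Finset.range n, ψ i (walk x η (i + 1))) * g (walk x η n) ∂Dr κ
      = ∑' y, zz κ x ψ n y * g y := by
  induction n with
  | zero => intro g; simp [zz, walk]
  | succ n ih =>
    intro g
    simp only [Finset.prod_range_succ, mul_assoc, zz]
    rw [step κ x n (fun η => ∏ i ∈ Finset.range n, ψ i (walk x η (i + 1)))
      (Finset.measurable_fun_prod _ fun i _ =>
        (Measurable.of_discrete (f := ψ i)).comp (wm x _))
      (fun ω ω' h => Finset.prod_congr rfl fun i hi => by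
        rw [wc x (i + 1) ω ω' fun j hj => h j (by have := Finset.mem_range.1 hi; omega)])
      (fun y => ψ n y * g y), ih, sw]

def Pn : ℕ → V → V → ℝ≥0∞
  | 0, v, w => if v = w then 1 else 0
  | n + 1, v, w => K κ (fun y => Pn n y w) v

def DD (n : ℕ) (v v' : V) : ℝ≥0∞ := ∑' z, Pn κ n v z * Pn κ n v' z

def Q (e : V → V → ℝ≥0∞) (v v' : V) : ℝ≥0∞ := K κ (fun y => K κ (e y) v') v

omit [DiscreteMeasurableSpace V] [Countable V] [∀ v, IsProbabilityMeasure (κ v)] in
lemma Q_DD (n : ℕ) (v v' : V) : Q κ (DD κ n) v v' = DD κ (n + 1) v v' := by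
  unfold Q DD
  simp only [K_tsum, K_mul, Pn]
  refine tsum_congr fun z => ?_
  simp only [mul_comm (Pn κ n _ z), K_mul]
  exact mul_comm _ _

def gg (v v' : V) : ℝ≥0∞ := ∑' n, DD κ (n + 1) v v'

lemma lyap {γ a Kc : ℝ≥0∞} (hγ : γ ≤ 1 + a) (ha : a * (1 + Kc) ≤ 1) (hK : ∀ v v', gg κ v v' ≤ Kc)
    (v v' : V) : Q κ (fun y y' => (if y = y' then γ else 1) * (1 + gg κ y y')) v v'
      ≤ 1 + gg κ v v' := by
  have h1 : ∀ y y', (if y = y' then γ else 1) * (1 + gg κ y y') ≤ 1 + ∑' n, DD κ n y y' := by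
    intro y y'
    rw [tsum_eq_zero_add' ENNReal.summable]
    split_ifs with h
    · subst h
      have e : DD κ 0 y y = 1 := by simp [DD, Pn]
      rw [e]
      calc γ * (1 + gg κ y y) ≤ (1 + a) * (1 + gg κ y y) := by gcongr
        _ = 1 + gg κ y y + a * (1 + gg κ y y) := by ring
        _ ≤ 1 + gg κ y y + a * (1 + Kc) := by gcongr; exact hK y y
        _ ≤ 1 + gg κ y y + 1 := by gcongr
        _ = _ := by unfold gg; ring
    · rw [one_mul]
      gcongr
      exact le_add_self
  refine (K_mono κ (fun y => K_mono κ (h1 y) v') v).trans (le_of_eq ?_)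
  simp only [K_add, K_one, K_tsum]
  congr 1
  exact tsum_congr fun n => Q_DD κ n v v'

omit [MeasurableSpace V] [DiscreteMeasurableSpace V] [Countable V] in
lemma slice (ν : Measure ℝ) [IsProbabilityMeasure ν] (φ : ℝ → ℝ≥0∞) (hφ : Measurable φ)
    (h1 : ∫⁻ t, φ t ∂ν = 1) (y y' : V) :
    ∫⁻ s, φ (s y) * φ (s y') ∂(Measure.infinitePi fun _ : V => ν)
      = if y = y' then ∫⁻ t, φ t * φ t ∂ν else 1 := by
  split_ifs with h
  · subst h
    rw [← lintegral_map (hφ.fun_mul hφ) (measurable_pi_apply y), Measure.infinitePi_map_eval]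
  · have hi := (iIndepFun_infinitePi (P := fun _ : V => ν) (X := fun _ => φ) fun _ => hφ).indepFun h
    rw [lintegral_mul_eq_lintegral_mul_lintegral_of_indepFun''
      (hφ.fun_comp (measurable_pi_apply y)).aemeasurable
      (hφ.fun_comp (measurable_pi_apply y')).aemeasurable hi]
    have e : ∀ y : V, ∫⁻ s, φ (s y) ∂(Measure.infinitePi fun _ : V => ν) = 1 := fun y => by
      rw [← lintegral_map hφ (measurable_pi_apply y), Measure.infinitePi_map_eval, h1]
    rw [e, e, one_mul]

omit [DiscreteMeasurableSpace V] [∀ v, IsProbabilityMeasure (κ v)] in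
lemma zz_meas (x : V) (φ : ℝ → ℝ≥0∞) (hφ : Measurable φ) (n : ℕ) :
    Measurable fun ω : ℕ → V → ℝ => zz κ x (fun i y => φ (ω i y)) n := by
  induction n with
  | zero => exact measurable_const
  | succ n ih =>
    refine measurable_pi_lambda _ fun y => ?_
    exact (Measurable.tsum fun v => ((measurable_pi_apply v).comp ih).mul_const _).fun_mul
      (hφ.comp ((measurable_pi_apply y).comp (measurable_pi_apply n)))

omit [DiscreteMeasurableSpace V] [Countable V] [∀ v, IsProbabilityMeasure (κ v)] in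
lemma zz_congr (x : V) (ψ ψ' : ℕ → V → ℝ≥0∞) (n : ℕ) (h : ∀ i < n, ψ i = ψ' i) :
    zz κ x ψ n = zz κ x ψ' n := by
  induction n with
  | zero => funext y; rfl
  | succ n ih =>
    funext y
    rw [zz, zz, ih fun i hi => h i (by omega), h n (by omega)]

omit [DiscreteMeasurableSpace V] [∀ v, IsProbabilityMeasure (κ v)] in
lemma second (ν : Measure ℝ) [IsProbabilityMeasure ν] (φ : ℝ → ℝ≥0∞) (hφ : Measurable φ)
    (h1 : ∫⁻ t, φ t ∂ν = 1) (h : V → V → ℝ≥0∞)
    (H : ∀ v v', Q κ (fun y y' => (if y = y' then ∫⁻ t, φ t * φ t ∂ν else 1) * h y y') v v'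
      ≤ h v v') (x : V) (n : ℕ) :
    ∫⁻ ω, ∑' y, zz κ x (fun i y => φ (ω i y)) n y * ∑' y', zz κ x (fun i y => φ (ω i y)) n y' * h y y'
      ∂(Measure.infinitePi fun _ : ℕ => Measure.infinitePi fun _ : V => ν) ≤ h x x := by
  induction n with
  | zero => simp [zz]
  | succ n ih =>
    refine le_trans ?_ ih
    have mZ : ∀ y, Measurable fun Z : V → ℝ≥0∞ => ∑' v, Z v * κ v {y} := fun y =>
      Measurable.tsum fun v => (measurable_pi_apply v).mul_const _
    have ms : ∀ y, Measurable fun s : V → ℝ => φ (s y) := fun y => hφ.comp (measurable_pi_apply y)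
    have e := MC.indep_past (Measure.infinitePi fun _ : V => ν) n _ (zz_meas κ x φ hφ n)
      (fun ω ω' hh => zz_congr κ x _ _ n fun i hi => by rw [hh i hi])
      (fun z => ∑' y, (∑' v, z.1 v * κ v {y}) * φ (z.2 y) *
        ∑' y', (∑' v, z.1 v * κ v {y'}) * φ (z.2 y') * h y y')
      (Measurable.tsum fun y => (((mZ y).comp measurable_fst).fun_mul
        ((ms y).comp measurable_snd)).fun_mul (Measurable.tsum fun y' =>
          (((mZ y').comp measurable_fst).fun_mul ((ms y').comp measurable_snd)).mul_const _))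
    refine le_of_eq_of_le e (lintegral_mono fun ω => ?_)
    simp only
    generalize zz κ x (fun i y => φ (ω i y)) n = Z
    have e2 : ∫⁻ s : V → ℝ, ∑' y, (∑' v, Z v * κ v {y}) * φ (s y) *
        ∑' y', (∑' v, Z v * κ v {y'}) * φ (s y') * h y y' ∂(Measure.infinitePi fun _ : V => ν)
        = ∑' y, (∑' v, Z v * κ v {y}) * ∑' y', (∑' v, Z v * κ v {y'}) *
          ((if y = y' then ∫⁻ t, φ t * φ t ∂ν else 1) * h y y') := by
      rw [lintegral_tsum fun y => (((ms y).const_mul _).fun_mul (Measurable.tsum fun y' =>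
        ((ms y').const_mul _).mul_const _)).aemeasurable]
      refine tsum_congr fun y => ?_
      simp only [← ENNReal.tsum_mul_left (a := (∑' v, Z v * κ v {y}) * _),
        ← ENNReal.tsum_mul_left (a := ∑' v, Z v * κ v {y})]
      rw [lintegral_tsum fun y' => (((ms y).const_mul _).fun_mul
        (((ms y').const_mul _).mul_const _)).aemeasurable]
      refine tsum_congr fun y' => ?_
      rw [← slice ν φ hφ h1 y y', ← lintegral_mul_const _ ((ms y).fun_mul (ms y')),
        ← lintegral_const_mul _ (((ms y).fun_mul (ms y')).mul_const _),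
        ← lintegral_const_mul _ ((((ms y).fun_mul (ms y')).mul_const _).const_mul _)]
      exact lintegral_congr fun s => by ring
    rw [e2]
    simp only [sw]
    refine ENNReal.tsum_le_tsum fun v => mul_le_mul_right ?_ _
    rw [K_tsum]
    refine ENNReal.tsum_le_tsum fun v' => ?_
    rw [K_mul]
    exact mul_le_mul_right (H v v') _

lemma moment (ν : Measure ℝ) [IsProbabilityMeasure ν] (φ : ℝ → ℝ≥0∞) (hφ : Measurable φ)
    (h1 : ∫⁻ t, φ t ∂ν = 1) {a Kc : ℝ≥0∞} (hγ : ∫⁻ t, φ t * φ t ∂ν ≤ 1 + a) (ha : a * (1 + Kc) ≤ 1)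
    (hK : ∀ v v', gg κ v v' ≤ Kc) (x : V) (n : ℕ) :
    ∫⁻ ω, (∫⁻ η, ∏ i ∈ Finset.range n, φ (ω i (walk x η (i + 1))) ∂Dr κ) ^ 2
      ∂(Measure.infinitePi fun _ : ℕ => Measure.infinitePi fun _ : V => ν) ≤ 1 + Kc := by
  refine le_trans (lintegral_mono fun ω => ?_) ((second κ ν φ hφ h1 (fun y y' => 1 + gg κ y y')
    (lyap κ hγ ha hK) x n).trans (by gcongr; exact hK x x))
  have := I_eq κ x (fun i y => φ (ω i y)) n fun _ => 1
  simp only [mul_one] at this
  simp only
  rw [this, sq, ← ENNReal.tsum_mul_right]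
  refine ENNReal.tsum_le_tsum fun y => mul_le_mul_right (ENNReal.tsum_le_tsum fun y' => ?_) _
  exact le_mul_of_one_le_right' le_self_add

def bb (x : V) : ℕ → V → ℝ≥0∞
  | 0, _ => 1
  | n + 1, v => K κ (fun w => if w = x then 0 else bb x n w) v

lemma last (x : V) (N : ℕ) : ∀ v, ∑ n ∈ Finset.range (N + 1), Pn κ n v x * bb κ x (N - n) x
    + (if v = x then 0 else bb κ x N v) = 1 := by
  induction N with
  | zero => intro v; by_cases h : v = x <;> simp [Pn, bb, h]
  | succ N ih =>
    intro v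
    have e : K κ (fun y => ∑ n ∈ Finset.range (N + 1), Pn κ n y x * bb κ x (N - n) x
      + (if y = x then 0 else bb κ x N y)) v = 1 := by simp only [ih, K_one]
    have e2 : K κ (fun y => ∑ n ∈ Finset.range (N + 1), Pn κ n y x * bb κ x (N - n) x) v
        = ∑ n ∈ Finset.range (N + 1), Pn κ (n + 1) v x * bb κ x (N - n) x := by
      simp only [K, Pn, Finset.mul_sum, ← ENNReal.tsum_mul_right, mul_assoc]
      exact Summable.tsum_finsetSum fun _ _ => ENNReal.summable
    rw [K_add, e2] at e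
    rw [Finset.sum_range_succ', ← e, add_assoc]
    simp only [Nat.add_sub_add_right]
    congr 1
    by_cases h : v = x <;> simp [Pn, bb, h]

lemma P_A (x : V) (t : ℕ) :
    ∫⁻ η, ∏ i ∈ Finset.range t, (if walk x η (i + 1) = x then (0 : ℝ≥0∞) else 1) ∂Dr κ
      = bb κ x t x := by
  have key : ∀ t n, ∑' y, zz κ x (fun _ y => if y = x then 0 else 1) t y * bb κ x n y
      = bb κ x (n + t) x := by
    intro t
    induction t with
    | zero => intro n; simp [zz]
    | succ t ih =>
      intro n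
      simp only [zz, mul_assoc]
      rw [sw, ← add_assoc, add_right_comm, ← ih]
      simp [bb]
  have := I_eq κ x (fun _ y => if y = x then 0 else 1) t (bb κ x 0)
  rw [key] at this
  simpa [bb] using this

lemma recur (x : V) (h : ∑' n, Pn κ n x x = ∞) : Dr κ {η | ∀ m, walk x η (m + 1) ≠ x} = 0 := by
  have h1 : ∀ t, Dr κ {η | ∀ m, walk x η (m + 1) ≠ x} ≤ bb κ x t x := by
    intro t
    rw [← P_A, ← lintegral_indicator_one₀]
    · refine lintegral_mono fun η => ?_
      by_cases hη : η ∈ {η | ∀ m, walk x η (m + 1) ≠ x}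
      · rw [Set.indicator_of_mem hη]
        simp [hη _]
      · rw [Set.indicator_of_notMem hη]
        exact zero_le
    · simp only [Set.ofPred_forall]
      exact (MeasurableSet.iInter fun m => wm x (m + 1)
        (MeasurableSet.of_discrete (s := {v | v ≠ x}))).nullMeasurableSet
  by_contra hc
  have h2 : ∑' n, Pn κ n x x * Dr κ {η | ∀ m, walk x η (m + 1) ≠ x} ≤ 1 := by
    refine ENNReal.tsum_le_of_sum_range_le fun N => ?_
    have := last κ x N x
    simp only [if_true, add_zero] at this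
    rw [← this]
    refine le_trans (Finset.sum_le_sum fun n _ => mul_le_mul_right (h1 (N - n)) _) ?_
    exact Finset.sum_le_sum_of_subset (Finset.range_mono (by omega))
  rw [ENNReal.tsum_mul_right, h, ENNReal.top_mul hc] at h2
  simp at h2

end

end Pool.Agent.H.MP_6abe48_pr
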