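import Mathlib
namespace Pool.Agent.H.MP_6abe48_pr

open Filter Topology

noncomputable section

def q : ℕ → ℤ → ℝ
  | 0, k => if k = 0 then 1 else 0
  | n + 1, k => (q n (k - 1) + q n (k + 1)) / 2

lemma q_nonneg (n : ℕ) : ∀ k, 0 ≤ q n k := by
  induction n with
  | zero => intro k; unfold q; split_ifs <;> norm_num
  | succ n ih => intro k; unfold q; have := ih (k - 1); have := ih (k + 1); linarith

lemma q_eq (n : ℕ) : ∀ k : ℤ, q n k =
    (if 0 ≤ n + k ∧ (n + k) % 2 = 0 then (n.choose ((n + k) / 2).toNat : ℝ) else 0) / 2 ^ n := by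
  induction n with
  | zero =>
    intro k
    unfold q
    by_cases h : k = 0
    · simp [h]
    · rw [if_neg h]
      split_ifs with h2
      · rw [Nat.choose_eq_zero_of_lt (by omega)]; simp
      · simp
  | succ n ih =>
    intro k
    unfold q
    rw [ih, ih, ← add_div, div_div, ← pow_succ]
    congr 1
    push_cast
    by_cases h : 0 ≤ (n : ℤ) + 1 + k ∧ ((n : ℤ) + 1 + k) % 2 = 0
    · rw [if_pos h, if_pos (show 0 ≤ (n : ℤ) + (k + 1) ∧ ((n : ℤ) + (k + 1)) % 2 = 0 by omega)]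
      by_cases h2 : (n : ℤ) + 1 + k = 0
      · rw [if_neg (by omega), show ((n : ℤ) + (k + 1)) / 2 = 0 by omega, h2]
        simp
      · rw [if_pos (by omega)]
        obtain ⟨j, hj⟩ : ∃ j : ℕ, (((n : ℤ) + (k - 1)) / 2).toNat = j := ⟨_, rfl⟩
        rw [hj, show (((n : ℤ) + (k + 1)) / 2).toNat = j + 1 by omega,
          show (((n : ℤ) + 1 + k) / 2).toNat = j + 1 by omega, Nat.choose_succ_succ]
        push_cast; rfl
    · rw [if_neg h, if_neg (by omega), if_neg (by omega)]; simp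

def cc (m : ℕ) : ℝ := (Nat.centralBinom m : ℝ) / 2 ^ (2 * m)

lemma cc_succ (m : ℕ) : cc (m + 1) = cc m * ((2 * m + 1) / (2 * m + 2)) := by
  have h := Nat.succ_mul_centralBinom_succ m
  have h2 : ((m : ℝ) + 1) * Nat.centralBinom (m + 1) = 2 * (2 * m + 1) * Nat.centralBinom m := by
    exact_mod_cast h
  unfold cc
  rw [show 2 * (m + 1) = 2 * m + 2 by ring, pow_add]
  field_simp
  linarith

lemma cc_up (m : ℕ) : cc m ^ 2 * (2 * m + 1) ≤ 1 := by
  induction m with
  | zero => simp [cc]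
  | succ m ih =>
    refine le_trans ?_ ih
    rw [cc_succ, mul_pow, mul_assoc]
    refine mul_le_mul_of_nonneg_left ?_ (sq_nonneg _)
    rw [div_pow, div_mul_eq_mul_div, div_le_iff₀ (by positivity)]
    push_cast
    have : (0 : ℝ) ≤ m := Nat.cast_nonneg m
    nlinarith

lemma cc_low (m : ℕ) : 1 ≤ cc (m + 1) ^ 2 * (4 * (m + 1)) := by
  induction m with
  | zero => simp [cc, Nat.centralBinom]; norm_num
  | succ m ih =>
    refine ih.trans ?_
    rw [cc_succ (m + 1), mul_pow, mul_assoc]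
    refine mul_le_mul_of_nonneg_left ?_ (sq_nonneg _)
    rw [div_pow, div_mul_eq_mul_div, le_div_iff₀ (by positivity)]
    push_cast
    have : (0 : ℝ) ≤ m := Nat.cast_nonneg m
    nlinarith

lemma q_zero (m : ℕ) : q (2 * m) 0 = cc m := by
  rw [q_eq, if_pos (by omega), show ((((2 * m : ℕ) : ℤ) + 0) / 2).toNat = m by omega]
  rfl

lemma q_le (n : ℕ) (k : ℤ) : q n k ≤ cc (n / 2) := by
  have h : ∀ m k, q (2 * m) k ≤ cc m := by
    intro m k
    rw [q_eq, cc]
    refine div_le_div_of_nonneg_right ?_ (by positivity)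
    split_ifs
    · exact_mod_cast Nat.choose_le_centralBinom _ m
    · positivity
  rcases Nat.even_or_odd' n with ⟨m, rfl | rfl⟩
  · rw [show 2 * m / 2 = m by omega]; exact h m k
  · rw [show (2 * m + 1) / 2 = m by omega, q]
    have := h m (k - 1); have := h m (k + 1); linarith

def p (n : ℕ) (d : ℤ × ℤ) : ℝ := q n (d.1 + d.2) * q n (d.1 - d.2)

lemma p_nonneg (n : ℕ) (d : ℤ × ℤ) : 0 ≤ p n d := mul_nonneg (q_nonneg _ _) (q_nonneg _ _)

lemma p_succ (n : ℕ) (d : ℤ × ℤ) : p (n + 1) d =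
    (p n (d + (1, 0)) + p n (d + (-1, 0)) + p n (d + (0, 1)) + p n (d + (0, -1))) / 4 := by
  simp only [p, q, Prod.fst_add, Prod.snd_add]
  ring_nf

lemma p_le (n : ℕ) (d : ℤ × ℤ) : p (n + 1) d ≤ 1 / (n + 1) := by
  have h1 := q_le (n + 1) (d.1 + d.2)
  have h2 := q_le (n + 1) (d.1 - d.2)
  have h3 := cc_up ((n + 1) / 2)
  have h4 : p (n + 1) d ≤ cc ((n + 1) / 2) ^ 2 := by
    rw [sq]; exact mul_le_mul h1 h2 (q_nonneg _ _) ((q_nonneg _ _).trans h1)
  have h5 : (n : ℝ) + 1 ≤ 2 * (((n + 1) / 2 : ℕ) : ℝ) + 1 := by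
    have : n + 1 ≤ 2 * ((n + 1) / 2) + 1 := by omega
    exact_mod_cast this
  rw [le_div_iff₀ (by positivity)]
  exact le_trans (mul_le_mul h4 h5 (by positivity) (sq_nonneg _)) h3

lemma p_div : ¬ Summable fun n => p (n + 1) 0 := by
  intro h
  have h1 := h.comp_injective (i := fun m : ℕ => 2 * m + 1) fun a b hab => by
    simp only at hab; omega
  have h2 : Summable fun m : ℕ => 1 / ((m + 1 : ℕ) : ℝ) := by
    refine Summable.of_nonneg_of_le (fun m => by positivity) (fun m => ?_) (h1.mul_left 4)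
    have := cc_low m
    simp only [Function.comp, p, Prod.fst_zero, Prod.snd_zero, add_zero, sub_zero]
    rw [show 2 * m + 1 + 1 = 2 * (m + 1) by ring, q_zero, div_le_iff₀ (by positivity)]
    push_cast
    nlinarith
  exact Real.not_summable_one_div_natCast ((summable_nat_add_iff 1).1 h2)

end

end Pool.Agent.H.MP_6abe48_pr
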