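import Mathlib
import Pool.Agent.H.MP_6abe48_pr.A
import Pool.Agent.H.MP_6abe48_pr.B
namespace Pool.Agent.H.MP_6abe48_pr

open MeasureTheory ProbabilityTheory Filter Topology Pool.Agent.Lib.helper3
open Pool.Agent.Lib.helper3.SRW (walk)
open scoped ENNReal

noncomputable section

def N (w : ℤ × ℤ) : ℕ := 2 ^ Encodable.encode w

lemma N_pos (w : ℤ × ℤ) : 0 < N w := by unfold N; positivity
lemma N_ne (w : ℤ × ℤ) : (N w : ℝ≥0∞) ≠ 0 := by exact_mod_cast (N_pos w).ne'

abbrev VV : Type := Σ w : ℤ × ℤ, Fin (N w)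

local instance msV : MeasurableSpace VV := ⊤
local instance dmV : DiscreteMeasurableSpace VV := ⟨fun _ => trivial⟩

def E : Finset (ℤ × ℤ) := {(1, 0), (-1, 0), (0, 1), (0, -1)}

lemma E_neg {d : ℤ × ℤ} (h : d ∈ E) : -d ∈ E := by
  simp only [E, Finset.mem_insert, Finset.mem_singleton] at h
  rcases h with rfl | rfl | rfl | rfl <;> simp [E]

def GG : SimpleGraph VV where
  Adj a b := b.1 - a.1 ∈ E
  symm := ⟨fun a b h => by simpa using E_neg h⟩
  loopless := ⟨fun a h => by simp [E, Prod.ext_iff] at h⟩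

def Pm (a b : VV) : ℝ≥0∞ := if b.1 - a.1 ∈ E then (4 * N b.1 : ℝ≥0∞)⁻¹ else 0

def kk (a : VV) : Measure VV := Measure.sum fun b => Pm a b • Measure.dirac b

lemma kk_apply (a b : VV) : kk a {b} = Pm a b := by
  rw [kk, Measure.sum_apply _ (MeasurableSet.of_discrete), tsum_eq_single b]
  · simp
  · intro c hc; simp [hc]

lemma KF (F : ℤ × ℤ → ℝ≥0∞) (a : VV) : ∑' b, Pm a b * F b.1 =
    4⁻¹ * (F (a.1 + (1, 0)) + F (a.1 + (-1, 0)) + F (a.1 + (0, 1)) + F (a.1 + (0, -1))) := by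
  rw [ENNReal.tsum_sigma']
  have h1 : ∀ w : ℤ × ℤ, ∑' j : Fin (N w), Pm a ⟨w, j⟩ * F w
      = if w - a.1 ∈ E then 4⁻¹ * F w else 0 := by
    intro w
    simp only [Pm, tsum_fintype, Finset.sum_const, Finset.card_univ, Fintype.card_fin,
      nsmul_eq_mul]
    split_ifs
    · rw [← mul_assoc, ENNReal.mul_inv (by simp) (by simp), mul_comm (4⁻¹ : ℝ≥0∞), ← mul_assoc,
        ENNReal.mul_inv_cancel (N_ne w) (by simp), one_mul]
    · simp
  simp only [h1]
  rw [← (Equiv.addLeft a.1).tsum_eq, tsum_eq_sum (s := E) fun d hd => by simp [hd],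
    Finset.sum_congr rfl (g := fun d => 4⁻¹ * F (a.1 + d)) fun d hd => by simp [hd],
    ← Finset.mul_sum]
  congr 1
  simp [E, add_assoc]

instance kk_prob (a : VV) : IsProbabilityMeasure (kk a) := ⟨by
  have := KF (fun _ => 1) a
  simp only [mul_one] at this
  rw [kk, Measure.sum_apply _ MeasurableSet.univ]
  simp only [Measure.smul_apply, measure_univ, smul_eq_mul, mul_one]
  rw [this, show (1 : ℝ≥0∞) + 1 + 1 + 1 = 4 by norm_num]
  exact ENNReal.inv_mul_cancel (by simp) (by simp)⟩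

lemma p_one (d : ℤ × ℤ) : p 1 d = if -d ∈ E then 1 / 4 else 0 := by
  obtain ⟨a, b⟩ := d
  simp only [p, q, E, Finset.mem_insert, Finset.mem_singleton, Prod.neg_mk, Prod.mk.injEq]
  split_ifs <;> first | omega | norm_num

lemma Pn_eq (n : ℕ) (b : VV) : ∀ a : VV,
    Pn kk (n + 1) a b = ENNReal.ofReal (p (n + 1) (a.1 - b.1)) * (N b.1 : ℝ≥0∞)⁻¹ := by
  induction n with
  | zero =>
    intro a
    simp only [Pn, K, kk_apply, mul_ite, mul_one, mul_zero, tsum_ite_eq, zero_add, p_one, neg_sub,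
      Pm]
    split_ifs
    · rw [ENNReal.mul_inv (by simp) (by simp), one_div, ENNReal.ofReal_inv_of_pos (by norm_num)]
      simp
    · simp
  | succ n ih =>
    intro a
    rw [Pn]
    simp only [ih, K, kk_apply]
    rw [KF (fun w => ENNReal.ofReal (p (n + 1) (w - b.1)) * (N b.1 : ℝ≥0∞)⁻¹), p_succ (n + 1),
      ← add_mul, ← add_mul, ← add_mul, ← mul_assoc, ENNReal.ofReal_div_of_pos (by norm_num),
      ENNReal.ofReal_add (add_nonneg (add_nonneg (p_nonneg _ _) (p_nonneg _ _)) (p_nonneg _ _))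
        (p_nonneg _ _), ENNReal.ofReal_add (add_nonneg (p_nonneg _ _) (p_nonneg _ _)) (p_nonneg _ _),
      ENNReal.ofReal_add (p_nonneg _ _) (p_nonneg _ _), ENNReal.div_eq_inv_mul]
    simp only [add_sub_right_comm]
    simp

lemma green (x : VV) : ∑' n, Pn kk n x x = ∞ := by
  rw [tsum_eq_zero_add' ENNReal.summable]
  simp only [Pn_eq, sub_self]
  rw [ENNReal.tsum_mul_right]
  have : ∑' n, ENNReal.ofReal (p (n + 1) 0) = ∞ := by
    by_contra hc
    have := ENNReal.summable_toReal hc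
    simp only [ENNReal.toReal_ofReal (p_nonneg _ _)] at this
    exact p_div this
  rw [this, ENNReal.top_mul (by simp)]
  simp

lemma coll : ∃ Kc : ℝ≥0∞, Kc ≠ ∞ ∧ ∀ v v', gg kk v v' ≤ Kc := by
  have s1 : ∑' w : ℤ × ℤ, (N w : ℝ≥0∞)⁻¹ ≤ 2 := by
    have := ENNReal.tsum_comp_le_tsum_of_injective (f := (Encodable.encode : ℤ × ℤ → ℕ))
      Encodable.encode_injective fun k => (2⁻¹ : ℝ≥0∞) ^ k
    rw [ENNReal.tsum_geometric_two] at this
    simpa [N, ENNReal.inv_pow] using this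
  have s2 : Summable fun n : ℕ => 1 / ((n : ℝ) + 1) * (1 / ((n : ℝ) + 1)) := by
    have := (summable_nat_add_iff 1).2 (Real.summable_one_div_nat_pow.2 (by norm_num : 1 < 2))
    refine this.congr fun n => ?_
    push_cast; field_simp
  refine ⟨(∑' n : ℕ, ENNReal.ofReal (1 / ((n : ℝ) + 1) * (1 / ((n : ℝ) + 1)))) * 2, ?_, ?_⟩
  · rw [← ENNReal.ofReal_tsum_of_nonneg (fun n => by positivity) s2]
    exact ENNReal.mul_ne_top ENNReal.ofReal_ne_top (by simp)
  · intro v v'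
    rw [gg, ← ENNReal.tsum_mul_right]
    refine ENNReal.tsum_le_tsum fun n => ?_
    refine le_trans ?_ (mul_le_mul_right s1 _)
    rw [DD, ENNReal.tsum_sigma', ← ENNReal.tsum_mul_left]
    refine ENNReal.tsum_le_tsum fun w => ?_
    simp only [Pn_eq, tsum_fintype, Finset.sum_const, Finset.card_univ, Fintype.card_fin,
      nsmul_eq_mul]
    rw [ENNReal.ofReal_mul (by positivity)]
    calc (N w : ℝ≥0∞) * (ENNReal.ofReal (p (n + 1) (v.1 - w)) * (N w : ℝ≥0∞)⁻¹ *
          (ENNReal.ofReal (p (n + 1) (v'.1 - w)) * (N w : ℝ≥0∞)⁻¹))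
        = ((N w : ℝ≥0∞) * (N w : ℝ≥0∞)⁻¹) * (ENNReal.ofReal (p (n + 1) (v.1 - w)) *
          ENNReal.ofReal (p (n + 1) (v'.1 - w)) * (N w : ℝ≥0∞)⁻¹) := by ring
      _ ≤ _ := by
        rw [ENNReal.mul_inv_cancel (N_ne w) (by simp), one_mul]
        gcongr <;> exact p_le _ _

lemma conn : GG.Connected := by
  let z : ∀ w : ℤ × ℤ, VV := fun w => ⟨w, ⟨0, N_pos w⟩⟩
  have st : ∀ (a b : VV), b.1 - a.1 ∈ E → GG.Reachable a b := fun a b h =>
    SimpleGraph.Adj.reachable (G := GG) h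
  have h1 : ∀ m : ℤ, GG.Reachable (z (0, 0)) (z (m, 0)) := by
    intro m
    induction m using Int.induction_on with
    | zero => rfl
    | succ m ih => exact ih.trans (st _ _ (by simp [z, E]))
    | pred m ih => exact ih.trans (st _ _ (by simp [z, E]; omega))
  have h2 : ∀ m n : ℤ, GG.Reachable (z (0, 0)) (z (m, n)) := by
    intro m n
    induction n using Int.induction_on with
    | zero => exact h1 m
    | succ m ih => exact ih.trans (st _ _ (by simp [z, E]))
    | pred m ih => exact ih.trans (st _ _ (by simp [z, E]; omega))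
  have h3 : ∀ a : VV, GG.Reachable (z (0, 0)) a := fun a =>
    (h2 (a.1.1 + 1) a.1.2).trans (st _ _ (by simp [z, E, Prod.ext_iff]))
  have : Nonempty VV := ⟨z 0⟩
  exact ⟨fun a b => (h3 a).symm.trans (h3 b)⟩

lemma lf (a : VV) : (GG.neighborSet a).Finite := by
  refine ((E.image (a.1 + ·)).sigma fun w => (Finset.univ : Finset (Fin (N w)))).finite_toSet.subset
    fun b hb => ?_
  simp only [Finset.coe_sigma, Set.mem_sigma_iff, Finset.coe_image, Finset.coe_univ, Set.mem_univ,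
    and_true]
  exact ⟨b.1 - a.1, hb, by simp⟩

def Env (ν : Measure ℝ) : Prop :=
  IsProbabilityMeasure ν ∧ Integrable id ν ∧ ∫ t, t ∂ν = 0 ∧ Var[id; ν] = 1 ∧
    ∀ β : ℝ, 0 < β → Integrable (fun t => Real.exp (β * t)) ν

lemma env_ex : ∃ ν, Env ν :=
  ⟨gaussianReal 0 1, inferInstance, (memLp_id_gaussianReal 1).integrable le_rfl,
    integral_id_gaussianReal, by simp, fun β _ => integrable_exp_mul_gaussianReal β⟩

lemma beta {ν : Measure ℝ} (h : Env ν) {Kc : ℝ≥0∞} (hK : Kc ≠ ∞) : ∃ β : ℝ, 0 < β ∧ ∃ a : ℝ≥0∞,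
    ∫⁻ t, ENNReal.ofReal (Real.exp (β * t - Real.log (∫ s, Real.exp (β * s) ∂ν))) ∂ν = 1 ∧
    ∫⁻ t, ENNReal.ofReal (Real.exp (β * t - Real.log (∫ s, Real.exp (β * s) ∂ν))) *
      ENNReal.ofReal (Real.exp (β * t - Real.log (∫ s, Real.exp (β * s) ∂ν))) ∂ν ≤ 1 + a ∧
    a * (1 + Kc) ≤ 1 := by
  obtain ⟨hp, hi, h0, -, he⟩ := h
  lift Kc to NNReal using hK
  have hM : ∀ β, 0 < β → 1 ≤ ∫ s, Real.exp (β * s) ∂ν := by
    intro β hβ
    have := integral_mono ((hi.const_mul β).add (integrable_const 1)) (he β hβ) fun t =>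
      Real.add_one_le_exp (β * t)
    simp only [Pi.add_apply, id] at this
    have i2 : Integrable (fun t => β * t) ν := hi.const_mul β
    rw [integral_add i2 (integrable_const 1), integral_const_mul] at this
    simpa [h0] using this
  obtain ⟨M, hM1⟩ : ∃ M, M = ∫ s, Real.exp (1 * s) ∂ν := ⟨_, rfl⟩
  have M1 : 1 ≤ M := hM1 ▸ hM 1 one_pos
  have K0 : (0 : ℝ) ≤ Kc := Kc.2
  obtain ⟨s, hs⟩ : ∃ s, s = 1 / (M * (1 + Kc)) := ⟨_, rfl⟩
  have s0 : 0 < s := by rw [hs]; positivity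
  have s1 : s * M * (1 + Kc) = 1 := by rw [hs]; field_simp
  have s2 : s ≤ 1 := by nlinarith [mul_nonneg s0.le K0, mul_nonneg (mul_nonneg s0.le K0) (sub_nonneg.2 M1)]
  have L := hM (s / 2) (by positivity)
  refine ⟨s / 2, by positivity, ENNReal.ofReal (s * M), ?_, ?_, ?_⟩
  · simp only [Real.exp_sub, Real.exp_log (lt_of_lt_of_le one_pos L)]
    rw [← ofReal_integral_eq_lintegral_ofReal ((he _ (by positivity)).div_const _)
      (ae_of_all _ fun t => by positivity), integral_div, div_self (by linarith)]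
    simp
  · have i1 : Integrable (fun t => 1 + s * Real.exp (1 * t)) ν :=
      (integrable_const 1).add ((he 1 one_pos).const_mul s)
    rw [← ENNReal.ofReal_one, ← ENNReal.ofReal_add (by norm_num) (by positivity)]
    have e : 1 + s * M = ∫ t, 1 + s * Real.exp (1 * t) ∂ν := by
      rw [integral_add (integrable_const 1) ((he 1 one_pos).const_mul s), integral_const_mul, hM1]
      simp
    rw [e, ofReal_integral_eq_lintegral_ofReal i1 (ae_of_all _ fun t => by positivity)]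
    refine lintegral_mono fun t => ?_
    simp only
    rw [← ENNReal.ofReal_mul (Real.exp_nonneg _), ← Real.exp_add]
    refine ENNReal.ofReal_le_ofReal ?_
    have l0 := Real.log_nonneg L
    have c := convexOn_exp.2 (Set.mem_univ 0) (Set.mem_univ t) (sub_nonneg.2 s2) s0.le (by ring)
    simp only [smul_eq_mul, mul_zero, zero_add, Real.exp_zero, mul_one] at c
    rw [one_mul]
    refine le_trans (Real.exp_le_exp.2 (show _ ≤ s * t by linarith)) (by linarith)
  · rw [← ENNReal.ofReal_coe_nnreal, ← ENNReal.ofReal_one, ← ENNReal.ofReal_add (by norm_num) K0,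
      ← ENNReal.ofReal_mul (by positivity), s1]

def W {V : Type} [MeasurableSpace V] (κ : V → Measure V) (ν : Measure ℝ) (β : ℝ) (n : ℕ) (x : V)
    (ω : ℕ → V → ℝ) : ℝ≥0∞ :=
  (∫⁻ η, ENNReal.ofReal (Real.exp (β * ∑ i ∈ Finset.range n, ω i (walk x η (i + 1))))
    ∂(Measure.infinitePi fun _ : ℕ => Measure.infinitePi κ)) *
    ENNReal.ofReal (Real.exp (-(n * Real.log (∫ s, Real.exp (β * s) ∂ν))))

theorem main : (∃ ν, Env ν) ∧ ∃ (V : Type) (G : SimpleGraph V),
    letI : MeasurableSpace V := ⊤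
    Countable V ∧ Infinite V ∧ G.Connected ∧ (∀ x, (G.neighborSet x).Finite) ∧
    ∃ κ : V → Measure V, (∀ x, IsProbabilityMeasure (κ x)) ∧ (∀ x y, κ x {y} ≠ 0 ↔ G.Adj x y) ∧
      (∃ π : V → ℝ, (∀ x, 0 < π x) ∧ ∀ x y, π x * (κ x).real {y} = π y * (κ y).real {x}) ∧
      (∀ x, ∀ᵐ η ∂(Measure.infinitePi fun _ : ℕ => Measure.infinitePi κ),
        ∃ m, walk x η (m + 1) = x) ∧
      ∀ ν, Env ν → ∃ β : ℝ, 0 < β ∧ ∀ x, ⨆ n, ∫⁻ ω, W κ ν β n x ω ^ 2
        ∂(Measure.infinitePi fun _ : ℕ => Measure.infinitePi fun _ : V => ν) < ∞ := by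
  refine ⟨env_ex, VV, GG, inferInstance, Infinite.of_surjective (fun a : VV => a.1)
    fun w => ⟨⟨w, ⟨0, N_pos w⟩⟩, rfl⟩, conn, lf, kk, kk_prob, fun x y => ?_,
    ⟨fun x => 1 / N x.1, fun x => by have := N_pos x.1; positivity, fun x y => ?_⟩, fun x => ?_,
    fun ν hν => ?_⟩
  · rw [kk_apply, Pm]
    show _ ↔ y.1 - x.1 ∈ E
    split_ifs with h
    · simp [h, ENNReal.mul_eq_top]
    · simp [h]
  · simp only [Measure.real, kk_apply, Pm]
    by_cases h : y.1 - x.1 ∈ E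
    · rw [if_pos h, if_pos (by simpa using E_neg h)]
      simp; ring
    · rw [if_neg h, if_neg fun h2 => h (by simpa using E_neg h2)]
      simp
  · have := recur kk x (green x)
    rw [ae_iff]
    simpa using this
  · obtain ⟨Kc, hK, hg⟩ := coll
    obtain ⟨β, hβ, a, h1, h2, h3⟩ := beta hν hK
    have := hν.1
    refine ⟨β, hβ, fun x => lt_of_le_of_lt (iSup_le fun n => le_trans (le_of_eq ?_)
      (moment kk ν _ (by fun_prop) h1 h2 h3 hg x n)) (by simp [hK, lt_top_iff_ne_top])⟩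
    refine lintegral_congr fun ω => ?_
    congr 1
    rw [W, ← lintegral_mul_const' _ _ ENNReal.ofReal_ne_top]
    refine lintegral_congr fun η => ?_
    rw [← ENNReal.ofReal_mul (Real.exp_nonneg _), ← Real.exp_add,
      ← ENNReal.ofReal_prod_of_nonneg fun _ _ => Real.exp_nonneg _, ← Real.exp_sum,
      Finset.sum_sub_distrib, Finset.mul_sum]
    simp [sub_eq_add_neg]

end

end Pool.Agent.H.MP_6abe48_pr
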